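import Mathlib
import Pool.Agent.N860.RU.Law

set_option autoImplicit false

/-!
# Repunits in every sequential random model of the primes

The integers are decided one after the other, no integer divisible by a prime at most `y` is chosen,
and the conditional probability of choosing `n + 1` (free of primes at most `y`) given the past is
asymptotic to `∏_{p ≤ y} (1 - 1/p)⁻¹ / log n`.  No independence and no rate is assumed.  Almost
surely, for all bases `b ≥ 2` at once, the number of the `n ≤ x` for which `n` and the repunit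
`1 + b + ... + b^(n-1)` are chosen is asymptotic to `∏_{p ≤ y} (1 - 1/p)⁻¹ log log x / log b`.
-/

open MeasureTheory Filter
open scoped Topology

namespace Pool.Agent.Results.MP_adea1b_nt.SievedModels

/-- the repunit of length `n` in base `b` -/
def R (b n : ℕ) : ℕ := ∑ i ∈ Finset.range n, b ^ i

/-- the number of the `n ≤ x` for which `n` and the repunit of length `n` in base `b` are in `S` -/
noncomputable def N (S : Set ℕ) (b x : ℕ) : ℕ := {n : ℕ | n ≤ x ∧ n ∈ S ∧ R b n ∈ S}.ncard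

/-- Let `S n` be the event that `n` is chosen, adapted to a filtration `ℱ`, let `y ≥ 2`, let no
integer with a prime factor at most `y` be chosen, and let the conditional probability of `S (n + 1)`
given `ℱ n`, times `log n`, tend to `∏_{p ≤ y} (1 - 1/p)⁻¹` along the `n` for which `n + 1` has no
prime factor at most `y`, almost surely.  Then almost surely, for every base `b ≥ 2`:
`N(b, x) / log log x → ∏_{p ≤ y} (1 - 1/p)⁻¹ / log b`, and there are infinitely many `n` for which
`n` and the repunit of length `n` in base `b` are chosen. -/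
theorem result {Ω : Type} [mΩ : MeasurableSpace Ω] (μ : Measure Ω) [IsProbabilityMeasure μ]
    (ℱ : Filtration ℕ mΩ) (S : ℕ → Set Ω) (hS : ∀ n, MeasurableSet[ℱ n] (S n))
    (y : ℕ) (hy : 2 ≤ y) (hsieve : ∀ n, (∃ p, p.Prime ∧ p ≤ y ∧ p ∣ n) → S n = ∅)
    (hd : ∀ᵐ ω ∂μ, Tendsto (fun n : ℕ =>
      (μ[(S (n + 1)).indicator (fun _ => (1 : ℝ)) | ℱ n]) ω * Real.log n)
      (atTop ⊓ 𝓟 {n : ℕ | ∀ p, p.Prime → p ≤ y → ¬ p ∣ n + 1})
      (𝓝 (∏ p ∈ Nat.primesLE y, (1 - 1 / (p : ℝ))⁻¹))) :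
    ∀ᵐ ω ∂μ, ∀ b : ℕ, 2 ≤ b →
      Tendsto (fun x : ℕ => (N {a | ω ∈ S a} b x : ℝ) / Real.log (Real.log x)) atTop
        (𝓝 ((∏ p ∈ Nat.primesLE y, (1 - 1 / (p : ℝ))⁻¹) / Real.log b)) ∧
      {n : ℕ | ω ∈ S n ∧ ω ∈ S (R b n)}.Infinite := by
  classical
  have hset : ∀ n : ℕ, (∀ p ∈ Nat.primesLE y, ¬ p ∣ n) ↔ ∀ p, p.Prime → p ≤ y → ¬ p ∣ n := by
    intro n
    constructor
    · intro h p hp hpy
      exact h p (Nat.mem_primesLE.2 ⟨hpy, hp⟩)
    · intro h p hp
      obtain ⟨h1, h2⟩ := Nat.mem_primesLE.1 hp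
      exact h p h2 h1
  have hprof := Pool.Agent.N860.LP.profile (μ := μ) (ℱ := ℱ) (S := S) hS (Nat.primesLE y)
    (fun p hp => (Nat.mem_primesLE.1 hp).2) (by
      rintro n ⟨p, hp, hpn⟩
      obtain ⟨h1, h2⟩ := Nat.mem_primesLE.1 hp
      exact hsieve n ⟨p, h2, h1, hpn⟩) (by
      simp_rw [hset]
      exact hd)
  filter_upwards [Pool.Agent.N860.RU.law (μ := μ) y hy hS hprof] with ω hω b hb
  have hmain : Tendsto (fun x : ℕ => (N {a | ω ∈ S a} b x : ℝ) / Real.log (Real.log x)) atTop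
        (𝓝 ((∏ p ∈ Nat.primesLE y, (1 - 1 / (p : ℝ))⁻¹) / Real.log b)) := by
    refine (hω b hb).congr fun x => ?_
    unfold N R Pool.Agent.N860.RU.Rb
    rfl
  refine ⟨hmain, ?_⟩
  have hb1 : (1 : ℝ) < b := by exact_mod_cast hb
  have hlb : 0 < Real.log b := Real.log_pos hb1
  have hc : 0 < ∏ p ∈ Nat.primesLE y, (1 - 1 / (p : ℝ))⁻¹ := by
    refine Finset.prod_pos fun p hp => ?_
    have hp2 := (Nat.mem_primesLE.1 hp).2.one_lt
    have : (1 : ℝ) < p := by exact_mod_cast hp2
    have h3 : 1 / (p : ℝ) < 1 := by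
      rw [div_lt_one (by linarith)]
      exact this
    have h4 : 0 < 1 - 1 / (p : ℝ) := by linarith
    positivity
  intro hfin
  have hN : ∀ x, N {a | ω ∈ S a} b x ≤ {n : ℕ | ω ∈ S n ∧ ω ∈ S (R b n)}.ncard := by
    intro x
    unfold N
    refine Set.ncard_le_ncard ?_ hfin
    rintro n ⟨_, h2, h3⟩
    exact ⟨h2, h3⟩
  have h0 : Tendsto (fun x : ℕ => (N {a | ω ∈ S a} b x : ℝ) / Real.log (Real.log x)) atTop (𝓝 0) := by
    have k1 : Tendsto (fun x : ℕ => ({n : ℕ | ω ∈ S n ∧ ω ∈ S (R b n)}.ncard : ℝ) /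
        Real.log (Real.log x)) atTop (𝓝 0) :=
      Tendsto.div_atTop tendsto_const_nhds Pool.Agent.N860.GW.loglog_atTop
    refine squeeze_zero' ?_ ?_ k1
    · filter_upwards [Pool.Agent.N860.GW.loglog_atTop.eventually_gt_atTop 0] with x hx
      positivity
    · filter_upwards [Pool.Agent.N860.GW.loglog_atTop.eventually_gt_atTop 0] with x hx
      apply div_le_div_of_nonneg_right _ hx.le
      exact_mod_cast hN x
  have h1 := tendsto_nhds_unique hmain h0
  have : 0 < (∏ p ∈ Nat.primesLE y, (1 - 1 / (p : ℝ))⁻¹) / Real.log b := by positivity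
  linarith

end Pool.Agent.Results.MP_adea1b_nt.SievedModels
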