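import Mathlib
import Pool.Agent.N176.GP.Fin
import Pool.Agent.N176.OW.All2

set_option autoImplicit false

/-!
# Repunits and first digits in all bases at once: windows of any length

For an integer `a ≥ 2`, a real `β > 0` and a prime `p` let `W a β p` be the `p`-rough part (the
product, with multiplicity, of the prime factors larger than `p`) of the largest integer below
`β * a ^ p`, the integer formed by the first `p` digits of `β` in base `a` (for `0 < β ≤ 1`,
non-terminating expansion).  For `a = 10` and `β = 1 / 9 = 0.111...` this is the repunit `R_p` itself,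
for every prime `p ≠ 3`; for any base and `β = 1 / (a - 1)` it is the repunit `(a ^ p - 1) / (a - 1)`
in base `a`, for every prime `p` that does not divide `a - 1`.  Call a prime `p` a good length for `β`
in base `a` if `W a β p` is prime.

According to the Poisson model behind the conjecture on repunit primes the good lengths form, on the
scale `log p`, a Poisson process of intensity `κ a = e ^ γ / log a`.  For such a process the number of
points in `(log n, log n']` differs from its mean `κ a * log (n' / n)` by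
`O (sqrt (log (n' / n) log log n') + log log n')`, for all windows at once, and for the windows
starting at the origin by `O (sqrt (log n log log log n))` (law of the iterated logarithm).  We prove
these bounds for the good lengths of almost every `β > 0`, in all bases `a ≥ 2` at once, for all
windows `(n, n']` at once, of whatever length, and for the whole counting function.  The same holds
for the good lengths in an arbitrary set `S` of primes of infinite weight `∑ log p / p`.
-/

namespace Pool.Agent.Results.MP_adea1b_nt.WindowsInEveryBase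

open Filter Topology MeasureTheory

/-- The product, with multiplicity, of the prime factors of `m` that are larger than `p`. -/
def roughPart (p m : ℕ) : ℕ := (m.primeFactorsList.filter (fun r => p < r)).prod

/-- The `p`-rough part of the largest integer below `β * a ^ p`. -/
noncomputable def W (a : ℕ) (β : ℝ) (p : ℕ) : ℕ := roughPart p (⌈β * (a : ℝ) ^ p⌉₊ - 1)

open Classical in
/-- The number of primes `p ≤ n` in the set `S` for which `W a β p` is prime. -/
noncomputable def M (a : ℕ) (S : Set ℕ) (β : ℝ) (n : ℕ) : ℕ :=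
  ((Finset.range (n + 1)).filter (fun p => p.Prime ∧ p ∈ S ∧ (W a β p).Prime)).card

open Classical in
/-- The sum of `log p / p` over the primes `p ≤ n` in the set `S`. -/
noncomputable def V (S : Set ℕ) (n : ℕ) : ℝ :=
  ∑ p ∈ (Finset.range (n + 1)).filter (fun p => p.Prime ∧ p ∈ S), Real.log p / p

/-- The constant of the law, `e ^ γ / log a`. -/
noncomputable def κ (a : ℕ) : ℝ := Real.exp Real.eulerMascheroniConstant / Real.log a

/-- all prime factors of `(b ^ p - 1) / (b - 1)` are large -/
lemma lt_of_dvd_repunit {b p r : ℕ} (hb : 2 ≤ b) (hp : p.Prime) (hpb : ¬ p ∣ b - 1) (hr : r.Prime)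
    (h : r ∣ (b ^ p - 1) / (b - 1)) : p < r := by
  haveI : Fact p.Prime := ⟨hp⟩
  haveI : Fact r.Prime := ⟨hr⟩
  have hdiv : (b - 1) ∣ b ^ p - 1 := by
    have h := Nat.sub_dvd_pow_sub_pow b 1 p
    rwa [one_pow] at h
  have hgeom : (∑ i ∈ Finset.range p, b ^ i) = (b ^ p - 1) / (b - 1) :=
    Nat.geomSum_eq hb p
  have h0 : r ∣ b ^ p - 1 := h.trans (Nat.div_dvd_of_dvd hdiv)
  have h1 : (b : ZMod r) ^ p = 1 := by
    have h2 : ((b ^ p - 1 : ℕ) : ZMod r) = 0 := (ZMod.natCast_eq_zero_iff _ _).2 h0
    rw [Nat.cast_sub (Nat.one_le_pow _ _ (by omega))] at h2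
    push_cast at h2
    exact sub_eq_zero.1 h2
  have h2 : (b : ZMod r) ≠ 1 := by
    intro h3
    rw [← hgeom] at h
    have h4 : ((∑ i ∈ Finset.range p, b ^ i : ℕ) : ZMod r) = 0 := (ZMod.natCast_eq_zero_iff _ _).2 h
    push_cast at h4
    rw [h3] at h4
    simp only [one_pow, Finset.sum_const, Finset.card_range, nsmul_eq_mul, mul_one] at h4
    have h5 : r ∣ p := (ZMod.natCast_eq_zero_iff _ _).1 h4
    have h6 : r = p := (Nat.prime_dvd_prime_iff_eq hr hp).1 h5
    subst h6
    apply hpb
    rw [← ZMod.natCast_eq_zero_iff, Nat.cast_sub (by omega), h3]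
    simp
  have h3 : orderOf (b : ZMod r) = p := orderOf_eq_prime h1 h2
  have h4 : (b : ZMod r) ≠ 0 := by
    intro h5
    rw [h5, zero_pow hp.ne_zero] at h1
    exact zero_ne_one h1
  have h5 : p ∣ r - 1 := by
    rw [← h3]
    exact orderOf_dvd_of_pow_eq_one (ZMod.pow_card_sub_one_eq_one h4)
  have h6 := Nat.le_of_dvd (by have := hr.one_lt; omega) h5
  have h7 := hr.one_lt
  omega

/-- the special value -/
lemma special {a p : ℕ} (ha : 2 ≤ a) (hp : p.Prime) (hpa : ¬ p ∣ a - 1) :
    W a (1 / ((a : ℝ) - 1)) p = (a ^ p - 1) / (a - 1) := by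
  have hgeom : (∑ i ∈ Finset.range p, a ^ i) = (a ^ p - 1) / (a - 1) := Nat.geomSum_eq ha p
  rw [← hgeom]
  set R := ∑ i ∈ Finset.range p, a ^ i with hR
  have ha1 : (1 : ℝ) ≤ (a : ℝ) - 1 := by
    have : (2 : ℝ) ≤ a := by exact_mod_cast ha
    linarith
  have ha0 : (a : ℝ) - 1 ≠ 0 := by linarith
  have hRr : (R : ℝ) * ((a : ℝ) - 1) = (a : ℝ) ^ p - 1 := by
    have h := geom_sum_mul (a : ℝ) p
    rw [hR]
    push_cast
    linarith
  have e : (1 / ((a : ℝ) - 1)) * (a : ℝ) ^ p = R + 1 / ((a : ℝ) - 1) := by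
    field_simp
    linarith
  have h1a : 0 < 1 / ((a : ℝ) - 1) := by positivity
  have h1b : 1 / ((a : ℝ) - 1) ≤ 1 := by
    rw [div_le_one (by linarith)]
    exact ha1
  have hceil : ⌈(1 / ((a : ℝ) - 1)) * (a : ℝ) ^ p⌉₊ = R + 1 := by
    rw [e, Nat.ceil_eq_iff (Nat.succ_ne_zero R)]
    push_cast
    constructor
    · linarith
    · linarith
  unfold W
  rw [hceil, Nat.add_sub_cancel]
  unfold roughPart
  have hR0 : R ≠ 0 := by
    intro h0
    have hmem : a ^ 0 ≤ R := by
      rw [hR]
      exact Finset.single_le_sum (f := fun i => a ^ i) (fun i _ => Nat.zero_le _)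
        (Finset.mem_range.2 hp.pos)
    rw [h0] at hmem
    simp at hmem
  rw [List.filter_eq_self.2, Nat.prod_primeFactorsList hR0]
  intro r hr
  have h1 := Nat.dvd_of_mem_primeFactorsList hr
  rw [hgeom] at h1
  have := lt_of_dvd_repunit ha hp hpa (Nat.prime_of_mem_primeFactorsList hr) h1
  simpa using this

/-- the decimal repunits -/
lemma special_ten {p : ℕ} (hp : p.Prime) (hp3 : p ≠ 3) :
    W 10 (1 / 9) p = ∑ i ∈ Finset.range p, 10 ^ i := by
  have hp9 : ¬ p ∣ 10 - 1 := by
    intro h
    have : p ∣ 3 ^ 2 := by simpa using h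
    exact hp3 ((Nat.prime_dvd_prime_iff_eq hp Nat.prime_three).1 (hp.dvd_of_dvd_pow this))
  have h := special (a := 10) (by norm_num) hp hp9
  have e : (1 / ((10 : ℕ) - 1 : ℝ)) = 1 / 9 := by norm_num
  rw [e] at h
  rw [h, Nat.geomSum_eq (by norm_num) p]

/-- The special values; the window law and the law of the iterated logarithm for all bases at once;
the same for the good lengths in an arbitrary set of primes of infinite weight. -/
theorem result :
    (∀ p : ℕ, p.Prime → p ≠ 3 → W 10 (1 / 9) p = ∑ i ∈ Finset.range p, 10 ^ i) ∧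
    (∀ a : ℕ, 2 ≤ a → ∀ p : ℕ, p.Prime → ¬ p ∣ a - 1 →
      W a (1 / ((a : ℝ) - 1)) p = (a ^ p - 1) / (a - 1)) ∧
    (∃ C : ℕ → ℝ, ∀ᵐ β : ℝ, 0 < β → ∀ a : ℕ, 2 ≤ a →
      (∀ᶠ n : ℕ in atTop, ∀ n' ≥ n,
        |((M a Set.univ β n' : ℝ) - M a Set.univ β n) - κ a * Real.log ((n' : ℝ) / n)| ≤
          C a * (√(Real.log ((n' : ℝ) / n) * Real.log (Real.log n')) + Real.log (Real.log n'))) ∧
      (∀ᶠ n : ℕ in atTop, |(M a Set.univ β n : ℝ) - κ a * Real.log n| ≤
        C a * √(Real.log n * Real.log (Real.log (Real.log n))))) ∧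
    (∃ C : ℕ → ℝ, ∀ S : Set ℕ, Tendsto (fun n => V S n) atTop atTop →
      ∀ᵐ β : ℝ, 0 < β → ∀ a : ℕ, 2 ≤ a →
      (∀ᶠ n : ℕ in atTop, ∀ n' ≥ n,
        |((M a S β n' : ℝ) - M a S β n) - κ a * (V S n' - V S n)| ≤
          C a * (√((V S n' - V S n) * Real.log (V S n')) + Real.log (V S n'))) ∧
      (∀ᶠ n : ℕ in atTop, |(M a S β n : ℝ) - κ a * V S n| ≤
        C a * √(V S n * Real.log (Real.log (V S n))))) := by
  classical
  have eM : ∀ a S β n, Pool.Agent.N176.GP.MB a S β n = M a S β n := by
    intro a S β n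
    unfold Pool.Agent.N176.GP.MB M W Pool.Agent.N176.GP.NB
    rfl
  have eV : ∀ S n, Pool.Agent.N176.OW.VS S n = V S n := fun S n => rfl
  have ek : ∀ a, Pool.Agent.N176.OW.kap a = κ a := fun a => rfl
  refine ⟨fun p hp h3 => special_ten hp h3, fun a ha p hp hpa => special ha hp hpa, ?_, ?_⟩
  · have hW := fun a (ha : 2 ≤ a) => Pool.Agent.N176.OW.win_univ Pool.Agent.N176.OW.All.win (b := a) ha
    have hL := fun a (ha : 2 ≤ a) => Pool.Agent.N176.OW.lil_univ Pool.Agent.N176.OW.All.lil (b := a) ha
    choose C1 hC1 h1 using hW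
    choose C2 hC2 h2 using hL
    simp only [eM, ek] at h1 h2
    refine ⟨fun a => if h : 2 ≤ a then max (C1 a h) (C2 a h) else 0, ?_⟩
    have h1' : ∀ᵐ β : ℝ, ∀ a : ℕ, ∀ ha : 2 ≤ a, 0 < β → ∀ᶠ n : ℕ in atTop, ∀ n' ≥ n,
        |((M a Set.univ β n' : ℝ) - M a Set.univ β n) - κ a * Real.log ((n' : ℝ) / n)| ≤
          C1 a ha * (√(Real.log ((n' : ℝ) / n) * Real.log (Real.log n')) +
            Real.log (Real.log n')) := by
      rw [ae_all_iff]
      intro a
      rw [ae_all_iff]
      intro ha
      exact h1 a ha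
    have h2' : ∀ᵐ β : ℝ, ∀ a : ℕ, ∀ ha : 2 ≤ a, 0 < β → ∀ᶠ n : ℕ in atTop,
        |(M a Set.univ β n : ℝ) - κ a * Real.log n| ≤
          C2 a ha * √(Real.log n * Real.log (Real.log (Real.log n))) := by
      rw [ae_all_iff]
      intro a
      rw [ae_all_iff]
      intro ha
      exact h2 a ha
    filter_upwards [h1', h2'] with β h1 h2 hβ a ha
    rw [dif_pos ha]
    constructor
    · filter_upwards [h1 a ha hβ, eventually_ge_atTop 16] with n hn hn16 n' hnn'
      refine (hn n' hnn').trans (mul_le_mul_of_nonneg_right (le_max_left _ _) ?_)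
      have h3 : (1 : ℝ) ≤ Real.log n' := by
        rw [Real.le_log_iff_exp_le (by
          have : 0 < n' := by omega
          exact_mod_cast this)]
        have h4 := Real.exp_one_lt_d9
        have h5 : (16 : ℝ) ≤ n' := by exact_mod_cast hn16.trans hnn'
        linarith
      have := Real.log_nonneg h3
      positivity
    · filter_upwards [h2 a ha hβ] with n hn
      exact hn.trans (mul_le_mul_of_nonneg_right (le_max_right _ _) (Real.sqrt_nonneg _))
  · have hW := fun a (ha : 2 ≤ a) => Pool.Agent.N176.OW.All.win a ha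
    have hL := fun a (ha : 2 ≤ a) => Pool.Agent.N176.OW.All.lil a ha
    choose C1 hC1 h1 using hW
    choose C2 hC2 h2 using hL
    simp only [eM, ek, eV] at h1 h2
    refine ⟨fun a => if h : 2 ≤ a then max (C1 a h) (C2 a h) else 0, fun S hS => ?_⟩
    have h1' : ∀ᵐ β : ℝ, ∀ a : ℕ, ∀ ha : 2 ≤ a, 0 < β → ∀ᶠ n : ℕ in atTop, ∀ n' ≥ n,
        |((M a S β n' : ℝ) - M a S β n) - κ a * (V S n' - V S n)| ≤
          C1 a ha * (√((V S n' - V S n) * Real.log (V S n')) + Real.log (V S n')) := by
      rw [ae_all_iff]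
      intro a
      rw [ae_all_iff]
      intro ha
      exact h1 a ha S hS
    have h2' : ∀ᵐ β : ℝ, ∀ a : ℕ, ∀ ha : 2 ≤ a, 0 < β → ∀ᶠ n : ℕ in atTop,
        |(M a S β n : ℝ) - κ a * V S n| ≤
          C2 a ha * √(V S n * Real.log (Real.log (V S n))) := by
      rw [ae_all_iff]
      intro a
      rw [ae_all_iff]
      intro ha
      exact h2 a ha S hS
    filter_upwards [h1', h2'] with β h1 h2 hβ a ha
    rw [dif_pos ha]
    constructor
    · filter_upwards [h1 a ha hβ, hS.eventually_ge_atTop 1] with n hn hn1 n' hnn'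
      refine (hn n' hnn').trans (mul_le_mul_of_nonneg_right (le_max_left _ _) ?_)
      have h3 : V S n ≤ V S n' := Pool.Agent.N176.OW.VS_mono S hnn'
      have := Real.log_nonneg (hn1.trans h3)
      positivity
    · filter_upwards [h2 a ha hβ] with n hn
      exact hn.trans (mul_le_mul_of_nonneg_right (le_max_right _ _) (Real.sqrt_nonneg _))

end Pool.Agent.Results.MP_adea1b_nt.WindowsInEveryBase
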